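import Pool.Agent.Q189.TriCycle3

/-!
# MP_26b77b_gt: the iteration of perimeter maximising triangles need not converge
-/

set_option autoImplicit false

open Filter Topology

namespace Pool.Agent.Results.MP_26b77b_gt.SixCycle

/-- `K` is a compact convex subset of the plane with nonempty interior whose boundary has a unique
tangent (supporting) line at every point, that is, a unique outer unit normal. -/
structure IsSmoothConvexBody (K : Set ℂ) : Prop where
  compact : IsCompact K
  convex : Convex ℝ K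
  interior_nonempty : (interior K).Nonempty
  smooth : ∀ p ∈ frontier K, ∃! n : ℂ, ‖n‖ = 1 ∧ ∀ x ∈ K, inner ℝ n (x - p) ≤ 0

/-- The perimeter of the triangle `ABC`. -/
noncomputable def perimeter (A B C : ℂ) : ℝ := dist A B + dist B C + dist C A

/-- The triangles `X_n Y_n Z_n` are produced by the iteration on the curve `C`, starting from the
nondegenerate inscribed triangle `X_0 Y_0 Z_0`: first `Z` is replaced by a point of `C` which
maximizes the perimeter (for fixed `X`, `Y`), then `Y` and then `X`. -/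
structure IsIteration (C : Set ℂ) (X Y Z : ℕ → ℂ) : Prop where
  mem : X 0 ∈ C ∧ Y 0 ∈ C ∧ Z 0 ∈ C
  nondegenerate : ¬ Collinear ℝ {X 0, Y 0, Z 0}
  stepZ : ∀ n, Z (n + 1) ∈ C ∧
    ∀ W ∈ C, perimeter (X n) (Y n) W ≤ perimeter (X n) (Y n) (Z (n + 1))
  stepY : ∀ n, Y (n + 1) ∈ C ∧
    ∀ W ∈ C, perimeter (X n) W (Z (n + 1)) ≤ perimeter (X n) (Y (n + 1)) (Z (n + 1))
  stepX : ∀ n, X (n + 1) ∈ C ∧
    ∀ W ∈ C, perimeter W (Y (n + 1)) (Z (n + 1)) ≤ perimeter (X (n + 1)) (Y (n + 1)) (Z (n + 1))

/-- The sequence which is `a` at even and `b` at odd times. -/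
def alt (a b : ℂ) (n : ℕ) : ℂ := if n % 2 = 0 then a else b

theorem alt_not_tendsto {a b : ℂ} (hab : a ≠ b) : ¬ ∃ l, Tendsto (alt a b) atTop (𝓝 l) := by
  rintro ⟨l, hl⟩
  have h2 : Tendsto (fun n : ℕ => 2 * n) atTop atTop :=
    tendsto_atTop_mono (fun n => (by omega : n ≤ 2 * n)) tendsto_id
  have h3 : Tendsto (fun n : ℕ => 2 * n + 1) atTop atTop :=
    tendsto_atTop_mono (fun n => (by omega : n ≤ 2 * n + 1)) tendsto_id
  have e1 : (fun n : ℕ => alt a b (2 * n)) = fun _ => a := by
    funext n; simp [alt]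
  have e2 : (fun n : ℕ => alt a b (2 * n + 1)) = fun _ => b := by
    funext n
    have : (2 * n + 1) % 2 = 1 := by omega
    simp [alt, this]
  have t1 := hl.comp h2
  have t2 := hl.comp h3
  change Tendsto (fun n : ℕ => alt a b (2 * n)) atTop (𝓝 l) at t1
  change Tendsto (fun n : ℕ => alt a b (2 * n + 1)) atTop (𝓝 l) at t2
  rw [e1] at t1
  rw [e2] at t2
  exact hab ((tendsto_nhds_unique t1 tendsto_const_nhds).symm.trans
    (tendsto_nhds_unique t2 tendsto_const_nhds))

/-- **Theorem.** There are a differentiable closed convex curve `C = ∂K` and a sequence of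
triangles produced by the iteration on `C`, none of whose three vertex sequences converges. -/
theorem result : ∃ (K : Set ℂ) (X Y Z : ℕ → ℂ), IsSmoothConvexBody K ∧
    IsIteration (frontier K) X Y Z ∧
    (¬ ∃ x, Tendsto X atTop (𝓝 x)) ∧ (¬ ∃ y, Tendsto Y atTop (𝓝 y)) ∧
    (¬ ∃ z, Tendsto Z atTop (𝓝 z)) := by
  open Q189.TriCycle in
  have hsub : frontier K ⊆ K := K_compact.isClosed.frontier_subset
  have hpar : ∀ n : ℕ, (n % 2 = 0 ∧ (n + 1) % 2 = 1) ∨ (n % 2 = 1 ∧ (n + 1) % 2 = 0) := by
    intro n; omega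
  refine ⟨K, alt p3 p6, alt p2 p5, alt p1 p4,
    ⟨K_compact, K_convex, K_interior, K_smooth⟩, ⟨?_, ?_, ?_, ?_, ?_⟩,
    alt_not_tendsto p36, alt_not_tendsto p25, alt_not_tendsto p14⟩
  · exact ⟨G6.1, G5.1, G4.1⟩
  · exact not_collinear
  · intro n
    rcases hpar n with ⟨h1, h2⟩ | ⟨h1, h2⟩
    · simp only [alt, h1, h2, if_true, one_ne_zero, if_false]
      refine ⟨G1.1, fun W hW => ?_⟩
      have := G1.2 W (hsub hW)
      simp only [perimeter, dist_eq_norm]
      rw [norm_sub_rev p2 W, norm_sub_rev p2 p4]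
      linarith
    · simp only [alt, h1, h2, if_true, one_ne_zero, if_false]
      refine ⟨G4.1, fun W hW => ?_⟩
      have := G4.2 W (hsub hW)
      simp only [perimeter, dist_eq_norm]
      rw [norm_sub_rev p5 W, norm_sub_rev p5 p1]
      linarith
  · intro n
    rcases hpar n with ⟨h1, h2⟩ | ⟨h1, h2⟩
    · simp only [alt, h1, h2, if_true, one_ne_zero, if_false]
      refine ⟨G2.1, fun W hW => ?_⟩
      have := G2.2 W (hsub hW)
      simp only [perimeter, dist_eq_norm]
      rw [norm_sub_rev p3 W, norm_sub_rev p3 p5]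
      linarith
    · simp only [alt, h1, h2, if_true, one_ne_zero, if_false]
      refine ⟨G5.1, fun W hW => ?_⟩
      have := G5.2 W (hsub hW)
      simp only [perimeter, dist_eq_norm]
      rw [norm_sub_rev p6 W, norm_sub_rev p6 p2]
      linarith
  · intro n
    rcases hpar n with ⟨h1, h2⟩ | ⟨h1, h2⟩
    · simp only [alt, h1, h2, if_true, one_ne_zero, if_false]
      refine ⟨G3.1, fun W hW => ?_⟩
      have := G3.2 W (hsub hW)
      simp only [perimeter, dist_eq_norm]
      rw [norm_sub_rev p4 W, norm_sub_rev p4 p6]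
      linarith
    · simp only [alt, h1, h2, if_true, one_ne_zero, if_false]
      refine ⟨G6.1, fun W hW => ?_⟩
      have := G6.2 W (hsub hW)
      simp only [perimeter, dist_eq_norm]
      rw [norm_sub_rev p1 W, norm_sub_rev p1 p3]
      linarith

end Pool.Agent.Results.MP_26b77b_gt.SixCycle
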